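import Pool.Agent.NH26.LR.Main
import Pool.Agent.NH26.LR.Dens

/-!
# The Lang–Rohrlich conjecture for the Gamma values with coprime numerators is false

For an integer `q > 2` let `F_q` be the field generated by `π` and the numbers `Γ(a / q)` with
`1 ≤ a ≤ q - 1` and `a` prime to `q`. Question Q1 asks whether the transcendence degree of `F_q` is at
least `1 + φ(q) / 2` for all `q`. It is not: for `q = 14`, where `1 + φ(q) / 2 = 4`, it is at most `3`,
since `Γ(1/14) Γ(9/14) Γ(11/14) = 4 π ^ (3/2)`, whereas the reflection formula alone would leave the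
four numbers `π`, `Γ(1/14)`, `Γ(3/14)`, `Γ(5/14)`.

The reason is general. By the multiplication formula the product of the `Γ(a / q)` to the powers `χ(a)`,
for an odd Dirichlet character `χ` modulo `q`, acquires the Euler factors `1 - χ*(p)` for the prime
numbers `p` dividing `q`, where `χ*` is the primitive character. If one of them is zero, the values
with coprime numerators satisfy one relation which does not follow from the reflection formula. Let
`N(q)` be the number of these characters. We prove that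

* `tr.deg F_q ≤ 1 + φ(q) / 2 - N(q)` for all `q > 2`;
* `tr.deg G_q ≤ tr.deg F_q + N(q)`, where `G_q` is generated by `π` and all `Γ(a / q)`, `1 ≤ a ≤ q - 1`;
  so if `tr.deg G_q` has the value `1 + φ(q) / 2` (the conjecture for all numerators), then the first
  inequality is an equality;
* `N(q) = 0` if and only if for every prime number `p` dividing `q` some power of `p` is congruent to
  `-1` modulo the largest divisor of `q` which is prime to `p`;
* so the inequality of Q1 holds for `q` if and only if `q` satisfies this elementary condition and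
  `tr.deg G_q = 1 + φ(q) / 2`;
* the condition, hence the inequality of Q1, holds only for a set of `q` of natural density zero.

Proof. The space of the complex numbers modulo those with algebraic exponential is a vector space over
`ℚ`, in which the classes of the logarithms of `Γ(x) / √π` form an odd distribution on `ℚ / ℤ`. The rank
of its values at the fractions with denominator `q` is computed with Dirichlet characters. The
multiplication formula of Gauss is proved with the theorem of Bohr and Mollerup.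
-/

set_option autoImplicit false

open IntermediateField

namespace Pool.Agent.Results.MP_274814_nt.CoprimeNumerators

/-- The field `F_q` of the problem, generated over `ℚ` by `π` and the numbers `Γ(a / q)` with
`1 ≤ a ≤ q - 1` and `gcd(a, q) = 1`. -/
noncomputable def F (q : ℕ) : IntermediateField ℚ ℂ :=
  adjoin ℚ ({(Real.pi : ℂ)} ∪
    {z | ∃ a : ℕ, 1 ≤ a ∧ a ≤ q - 1 ∧ Nat.gcd a q = 1 ∧ z = Complex.Gamma ((a : ℂ) / q)})

/-- The field `G_q`, generated over `ℚ` by `π` and all numbers `Γ(a / q)` with `1 ≤ a ≤ q - 1`. -/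
noncomputable def G (q : ℕ) : IntermediateField ℚ ℂ :=
  adjoin ℚ ({(Real.pi : ℂ)} ∪
    {z | ∃ a : ℕ, 1 ≤ a ∧ a ≤ q - 1 ∧ z = Complex.Gamma ((a : ℂ) / q)})

/-- The inequality `tr.deg F_q ≥ 1 + φ(q) / 2` of Q1, for one `q`. -/
def LangRohrlich (q : ℕ) : Prop :=
  ((1 + q.totient / 2 : ℕ) : Cardinal) ≤ Algebra.trdeg ℚ (F q)

/-- `N(q)`: the number of the odd Dirichlet characters `χ` modulo `q` (that is, `χ(-1) = -1`) for
which the primitive character belonging to `χ` takes the value `1` at some prime number `p` dividing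
`q`. -/
noncomputable def N (q : ℕ) : ℕ :=
  Nat.card {χ : DirichletCharacter ℂ q // χ (-1) = -1 ∧
    ∃ p : ℕ, p.Prime ∧ p ∣ q ∧ χ.primitiveCharacter (p : ZMod χ.conductor) = 1}

/-- For every prime number `p` dividing `q`, some power of `p` is congruent to `-1` modulo the largest
divisor of `q` which is prime to `p`. -/
def MinusOneIsPower (q : ℕ) : Prop :=
  ∀ p : ℕ, p.Prime → p ∣ q → ∃ k : ℕ, q / p ^ padicValNat p q ∣ p ^ k + 1

open Pool.Agent.NH26.LR

theorem good_add (q : ℕ) (hq : 2 < q) :
    Nat.card {χ : DirichletCharacter ℂ q // χ.Odd ∧ ¬ Bad χ} + N q = q.totient / 2 := by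
  have : NeZero q := ⟨by omega⟩
  have h1 := card_good q
  have h2 := two_mul_card_odd q hq
  have h3 : N q = Nat.card {χ : DirichletCharacter ℂ q // χ.Odd ∧ Bad χ} := rfl
  rw [h3]
  omega

theorem N_eq_zero (q : ℕ) (hq : 2 < q) : N q = 0 ↔ MinusOneIsPower q := by
  have : NeZero q := ⟨by omega⟩
  constructor
  · intro h
    apply minusOne_of_not_bad
    intro χ ho hb
    have h1 : IsEmpty {χ : DirichletCharacter ℂ q // χ.Odd ∧ Bad χ} := by
      rcases Nat.card_eq_zero.1 h with h | h
      · exact h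
      · exact absurd h (not_infinite_iff_finite.2 inferInstance)
    exact h1.elim ⟨χ, ho, hb⟩
  · intro h
    apply Nat.card_eq_zero.2
    left
    constructor
    rintro ⟨χ, ho, hb⟩
    exact not_bad_of_minusOne h χ ho hb

theorem upper (q : ℕ) (hq : 2 < q) :
    Algebra.trdeg ℚ (F q) + N q ≤ ((1 + q.totient / 2 : ℕ) : Cardinal) := by
  rw [← good_add q hq]
  have h1 : Algebra.trdeg ℚ (F q) ≤
      1 + (Nat.card {χ : DirichletCharacter ℂ q // χ.Odd ∧ ¬ Bad χ} : ℕ) := main_F q hq
  refine (add_le_add_left h1 _).trans (le_of_eq ?_)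
  push_cast
  ring

theorem rel (q : ℕ) (hq : 2 < q) : Algebra.trdeg ℚ (G q) ≤ Algebra.trdeg ℚ (F q) + N q :=
  main_rel q hq

theorem upper_G (q : ℕ) (hq : 2 < q) :
    Algebra.trdeg ℚ (G q) ≤ ((1 + q.totient / 2 : ℕ) : Cardinal) := by
  have h1 : Algebra.trdeg ℚ (G q) ≤ 1 + (Nat.card {χ : DirichletCharacter ℂ q // χ.Odd} : ℕ) :=
    main_G q hq
  have h2 := two_mul_card_odd q hq
  have h3 : q.totient / 2 = Nat.card {χ : DirichletCharacter ℂ q // χ.Odd} := by omega
  rw [h3]
  refine h1.trans (le_of_eq ?_)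
  push_cast
  rfl

theorem F_le_G (q : ℕ) : F q ≤ G q := by
  apply adjoin.mono
  apply Set.union_subset_union_right
  rintro z ⟨a, h1, h2, _, h3⟩
  exact ⟨a, h1, h2, h3⟩

theorem minusOne_of_LR {q : ℕ} (hq : 2 < q) (h : LangRohrlich q) : MinusOneIsPower q := by
  rw [← N_eq_zero q hq]
  have h1 : Algebra.trdeg ℚ (F q) ≤
      1 + (Nat.card {χ : DirichletCharacter ℂ q // χ.Odd ∧ ¬ Bad χ} : ℕ) := main_F q hq
  have h2 := h.trans h1
  have h3 := good_add q hq
  have h4 : 1 + q.totient / 2 ≤ 1 + Nat.card {χ : DirichletCharacter ℂ q // χ.Odd ∧ ¬ Bad χ} := by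
    exact_mod_cast h2
  omega

theorem criterion (q : ℕ) (hq : 2 < q) : LangRohrlich q ↔
    MinusOneIsPower q ∧ Algebra.trdeg ℚ (G q) = ((1 + q.totient / 2 : ℕ) : Cardinal) := by
  constructor
  · intro h
    exact ⟨minusOne_of_LR hq h, le_antisymm (upper_G q hq) (h.trans (trdeg_mono (F_le_G q)))⟩
  · rintro ⟨h1, h2⟩
    have h3 := rel q hq
    rw [(N_eq_zero q hq).2 h1, Nat.cast_zero, add_zero, h2] at h3
    exact h3

theorem not_minusOne_fourteen : ¬ MinusOneIsPower 14 := by
  intro h
  obtain ⟨k, hk⟩ := h 2 Nat.prime_two (by norm_num)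
  have h1 : padicValNat 2 14 = 1 := by
    rw [show 14 = 2 * 7 from rfl, padicValNat.mul (by norm_num) (by norm_num), padicValNat_self,
      padicValNat.eq_zero_of_not_dvd (by norm_num)]
  rw [h1, show 14 / 2 ^ 1 = 7 from rfl] at hk
  have h2 : ∀ k : ℕ, 2 ^ k % 7 = 1 ∨ 2 ^ k % 7 = 2 ∨ 2 ^ k % 7 = 4 := by
    intro k
    induction k with
    | zero => left; rfl
    | succ k ih => rw [pow_succ]; omega
  have := h2 k
  omega

/-- The Lang–Rohrlich conjecture for the Gamma values with coprime numerators is false: for `q = 14`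
the transcendence degree is at most `3 = φ(14) / 2`; for every `q` the conjectured value `1 + φ(q) / 2`
has to be diminished at least by `N(q)`, and not more if the conjecture for all numerators holds; the
inequality of Q1 holds for `q` if and only if `-1` is a power of `p` modulo the largest divisor of `q`
prime to `p`, for each prime `p` dividing `q`, and the conjecture for all numerators holds for `q`; and
the set of the `q` for which it holds has density zero. -/
theorem result :
    (Nat.totient 14 = 6 ∧ Algebra.trdeg ℚ (F 14) ≤ 3) ∧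
    (¬ ∀ q : ℕ, 2 < q → ((1 + q.totient / 2 : ℕ) : Cardinal) ≤ Algebra.trdeg ℚ (F q)) ∧
    (∀ q : ℕ, 2 < q →
      Algebra.trdeg ℚ (F q) + N q ≤ ((1 + q.totient / 2 : ℕ) : Cardinal) ∧
      Algebra.trdeg ℚ (G q) ≤ Algebra.trdeg ℚ (F q) + N q ∧
      (N q = 0 ↔ MinusOneIsPower q) ∧
      (LangRohrlich q ↔
        MinusOneIsPower q ∧ Algebra.trdeg ℚ (G q) = ((1 + q.totient / 2 : ℕ) : Cardinal))) ∧
    (∀ ε : ℝ, 0 < ε → ∃ X₀ : ℕ, ∀ X : ℕ, X₀ ≤ X →
      (Nat.card {q : ℕ // 2 < q ∧ q ≤ X ∧ LangRohrlich q} : ℝ) ≤ ε * X) := by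
  have h14 : Nat.totient 14 = 6 := by decide
  have hN : N 14 ≠ 0 := fun h => not_minusOne_fourteen ((N_eq_zero 14 (by norm_num)).1 h)
  refine ⟨⟨h14, ?_⟩, ?_, fun q hq => ⟨upper q hq, rel q hq, N_eq_zero q hq, criterion q hq⟩, ?_⟩
  · have h1 : Algebra.trdeg ℚ (F 14) ≤
        1 + (Nat.card {χ : DirichletCharacter ℂ 14 // χ.Odd ∧ ¬ Bad χ} : ℕ) :=
      main_F 14 (by norm_num)
    have h2 := good_add 14 (by norm_num)
    rw [h14] at h2
    refine h1.trans ?_
    have h3 : 1 + Nat.card {χ : DirichletCharacter ℂ 14 // χ.Odd ∧ ¬ Bad χ} ≤ 3 := by omega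
    exact_mod_cast h3
  · intro h
    exact not_minusOne_fourteen (minusOne_of_LR (by norm_num) (h 14 (by norm_num)))
  · intro ε hε
    obtain ⟨X₀, hX₀⟩ := natNull_minusOne ε hε
    refine ⟨X₀, fun X hX => le_trans ?_ (hX₀ X hX)⟩
    have h1 : Nat.card {q : ℕ // 2 < q ∧ q ≤ X ∧ LangRohrlich q} =
        {q : ℕ | 2 < q ∧ q ≤ X ∧ LangRohrlich q}.ncard := rfl
    rw [h1]
    have h2 : {q : ℕ | 2 < q ∧ q ≤ X ∧ LangRohrlich q} ⊆ {q | MinusOne q} ∩ Set.Ioc 0 X := by
      rintro q ⟨h2, h3, h4⟩
      exact ⟨minusOne_of_LR h2 h4, by omega, h3⟩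
    exact_mod_cast Set.ncard_le_ncard h2 ((Set.finite_Ioc 0 X).subset Set.inter_subset_right)

end Pool.Agent.Results.MP_274814_nt.CoprimeNumerators
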